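import Pool.Agent.N549.AB.Stm2
import Pool.Agent.N615.CG.Locc

/-!
# Two Hamming balls whose centres are not near (project AB of helper549)

Written by helper470.
-/

set_option autoImplicit false

namespace Pool.Agent.N470.AB

open Finset
open Pool.Agent.N549.CG (W V)

lemma hd_split {n : ℕ} (i : Fin n) (x y : W n) : hammingDist x y =
    ((univ.erase i).filter fun j => x j ≠ y j).card + if x i ≠ y i then 1 else 0 := by
  have h : hammingDist x y = (univ.filter fun j => x j ≠ y j).card := rfl
  rw [h, ← insert_erase (mem_univ i), filter_insert]
  by_cases hi : x i ≠ y i
  · rw [if_pos hi, if_pos hi, card_insert_of_notMem (by simp), insert_erase (mem_univ i)]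
  · rw [if_neg hi, if_neg hi, insert_erase (mem_univ i), add_zero]

lemma upd {n : ℕ} (i : Fin n) (x y : W n) (b : Bool) :
    ((univ.erase i).filter fun j => x j ≠ Function.update y i b j) =
      (univ.erase i).filter fun j => x j ≠ y j := by
  apply filter_congr
  intro j hj
  rw [Function.update_of_ne (ne_of_mem_erase hj)]

lemma upd' {n : ℕ} (i : Fin n) (x y : W n) (b : Bool) :
    ((univ.erase i).filter fun j => Function.update x i b j ≠ y j) =
      (univ.erase i).filter fun j => x j ≠ y j := by
  apply filter_congr
  intro j hj
  rw [Function.update_of_ne (ne_of_mem_erase hj)]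

/-- The number of the words near `u` and `v` grows when `v` moves towards `u`. -/
lemma step {n D : ℕ} (u v : W n) (i : Fin n) (hi : u i ≠ v i) :
    #{y : W n | hammingDist u y ≤ D ∧ hammingDist v y ≤ D} ≤
      #{y : W n | hammingDist u y ≤ D ∧ hammingDist (Function.update v i (u i)) y ≤ D} := by
  classical
  set S : Finset (W n) := {y : W n | hammingDist u y ≤ D ∧ hammingDist v y ≤ D} with hS
  set S' : Finset (W n) :=
    {y : W n | hammingDist u y ≤ D ∧ hammingDist (Function.update v i (u i)) y ≤ D} with hS'
  have key : (S \ S').card ≤ (S' \ S).card := by
    refine card_le_card_of_injOn (fun y => Function.update y i (u i)) ?_ ?_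
    · intro y hy
      rw [mem_coe, mem_sdiff, hS, hS', mem_filter, mem_filter] at hy
      obtain ⟨⟨-, h1, h2⟩, h3⟩ := hy
      have h4 : D < hammingDist (Function.update v i (u i)) y := by
        by_contra h
        exact h3 ⟨mem_univ _, h1, not_lt.1 h⟩
      have h5 := hd_split i (Function.update v i (u i)) y
      rw [upd', Function.update_self] at h5
      have h6 := hd_split i v y
      have h7 := hd_split i u y
      have h8 := hd_split i u (Function.update y i (u i))
      rw [upd, Function.update_self, if_neg (by simp)] at h8
      have h9 := hd_split i v (Function.update y i (u i))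
      rw [upd, Function.update_self, if_pos hi.symm] at h9
      have h10 := hd_split i (Function.update v i (u i)) (Function.update y i (u i))
      rw [upd, upd', Function.update_self, Function.update_self, if_neg (by simp)] at h10
      have hyi : y i = v i := by
        by_contra h
        rw [if_pos (fun e => h e.symm)] at h6
        split_ifs at h5 <;> omega
      rw [mem_coe, mem_sdiff, hS, hS', mem_filter, mem_filter]
      have huy : u i ≠ y i := by rw [hyi]; exact hi
      rw [if_pos huy] at h5 h7
      rw [if_neg (by rw [hyi]; simp)] at h6
      beta_reduce
      refine ⟨⟨mem_univ _, by omega, by omega⟩, ?_⟩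
      rintro ⟨-, -, h⟩
      omega
    · intro y hy z hz hyz
      have hval : ∀ y ∈ S \ S', y i = v i := by
        intro y hy
        rw [mem_sdiff, hS, hS', mem_filter, mem_filter] at hy
        obtain ⟨⟨-, h1, h2⟩, h3⟩ := hy
        have h4 : D < hammingDist (Function.update v i (u i)) y := by
          by_contra h
          exact h3 ⟨mem_univ _, h1, not_lt.1 h⟩
        have h5 := hd_split i (Function.update v i (u i)) y
        rw [upd', Function.update_self] at h5
        have h6 := hd_split i v y
        by_contra h
        rw [if_pos (fun e => h e.symm)] at h6
        split_ifs at h5 <;> omega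
      funext j
      by_cases hj : j = i
      · rw [hj, hval y (mem_coe.1 hy), hval z (mem_coe.1 hz)]
      · have := congrFun hyz j
        simpa [Function.update_of_ne hj] using this
  calc S.card = (S \ S').card + (S ∩ S').card := (card_sdiff_add_card_inter S S').symm
    _ ≤ (S' \ S).card + (S' ∩ S).card := by rw [inter_comm S S']; omega
    _ = S'.card := card_sdiff_add_card_inter S' S

theorem lensc : Pool.Agent.N549.AB.S_LENSC := by
  intro n D hD u v huv
  have main : ∀ k : ℕ, ∀ v : W n, hammingDist u v = D + k →
      #{y : W n | hammingDist u y ≤ D ∧ hammingDist v y ≤ D} ≤ 2 ^ D * V (n - D) (D / 2) := by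
    intro k
    induction k with
    | zero =>
      intro v hv
      rw [add_zero] at hv
      have h := Pool.Agent.N615.CG.near hD v u (by rw [hammingDist_comm]; omega)
      rw [hammingDist_comm v u, hv] at h
      exact h
    | succ k ih =>
      intro v hv
      have hne : ∃ i, u i ≠ v i := by
        by_contra h
        push Not at h
        have : u = v := funext h
        rw [this, hammingDist_self] at hv
        omega
      obtain ⟨i, hi⟩ := hne
      refine (step u v i hi).trans (ih _ ?_)
      have h1 := hd_split i u (Function.update v i (u i))
      rw [upd, Function.update_self, if_neg (by simp)] at h1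
      have h2 := hd_split i u v
      rw [if_pos hi] at h2
      omega
  exact main (hammingDist u v - D) v (by omega)

end Pool.Agent.N470.AB
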